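import Pool.Agent.helper92.DP.SEPI
import Pool.Agent.helper64.TP.SpecE
import Pool.Agent.helper64.TP.Basic

/-!
# Project sp (TP part): module SEXI, separation of arms with an outer event, inner side
-/

namespace TP

open DP

open MeasureTheory

theorem SEXI (hSE1 : SE1_stmt) (hSE3 : SE3_stmt) (hGXF : GXF_stmt) : SEXI_stmt := by
  obtain ⟨c₁, hc₁, i₁, h1⟩ := hSE1
  obtain ⟨C₃, hC₃, i₂, h3⟩ := hSE3 (c₁ / 2) (by positivity)
  refine ⟨max 1 (2 * C₃), le_max_left _ _, max i₁ i₂, ?_⟩
  intro j ρ x D X i₀ A hj hρ hx hi₀ hD hX hA hrestr hbase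
  obtain ⟨I, hI⟩ : ∃ I, I = max i₁ i₂ := ⟨_, rfl⟩
  have hI1 : i₁ ≤ I := by rw [hI]; exact le_max_left _ _
  have hI2 : i₂ ≤ I := by rw [hI]; exact le_max_right _ _
  obtain ⟨C, hC⟩ : ∃ C, C = max 1 (2 * C₃) := ⟨_, rfl⟩
  have hC1 : 1 ≤ C := by rw [hC]; exact le_max_left _ _
  have hC2 : 2 * C₃ ≤ C := by rw [hC]; exact le_max_right _ _
  rw [← hC, ← hI] at *
  have key : ∀ k : ℕ, ∀ i : ℕ, I + 1 ≤ i → i + k = i₀ →
      Q ρ (X ∩ Ev fun c => Fam c j false x (2 ^ i) D)
          (X ∩ Ev fun c => Fam c j false x (2 ^ i) D) ≤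
        C * (1 + A / 2 ^ k) * Q ρ (X ∩ Ev fun c => Std c j false x (2 ^ (i - 1)) D)
          (X ∩ Ev fun c => Std c j false x (2 ^ (i - 1)) D) := by
    intro k
    induction k with
    | zero =>
      intro i hi hik
      have hii : i = i₀ := by omega
      subst hii
      refine hbase.trans ?_
      rw [pow_zero, div_one]
      refine mul_le_mul_of_nonneg_right ?_ measureReal_nonneg
      nlinarith
    | succ k ih =>
      intro i hi hik
      have hlt : i < i₀ := by omega
      have hsub : (2 : ℕ) ^ (i + 1) ≤ 2 ^ (i₀ + 1) := Nat.pow_le_pow_right (by norm_num) (by omega)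
      have hok : D.ok false x (2 ^ (i + 1)) := SEPI_ok_mono hsub hD
      have hX' : Loc X {v | 2 ^ (i + 1) ≤ sd x v} :=
        hX.mono fun v hv => le_trans hsub hv
      have hF : Loc (Ev fun c => Fam c j false x (2 ^ (i + 1)) D) {v | 2 ^ (i + 1) ≤ sd x v} := by
        have hM : ∃ M, ∀ k, {v | M < sd x v} ⊆ D.N k := by
          have h := hD
          simp only [Dat.ok, Bool.false_eq_true, if_false] at h
          exact h.2.2
        have := hGXF j false x (2 ^ (i + 1)) D (Or.inr hM)
        simpa [HS] using this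
      have hY : Loc (X ∩ Ev fun c => Fam c j false x (2 ^ (i + 1)) D)
          {v | 2 ^ (i + 1) ≤ sd x v} := by
        have := hX'.inter hF
        rwa [Set.union_self] at this
      have hnx : nx false (2 ^ i) = 2 ^ (i - 1) := by
        unfold nx
        rw [if_neg (by simp)]
        obtain ⟨i', rfl⟩ : ∃ i', i = i' + 1 := ⟨i - 1, by omega⟩
        rw [pow_succ, Nat.add_sub_cancel]
        omega
      have a1 := h1 j false ρ x D X i hj hρ hx (by omega)
        (by simpa using hok) (by simpa [Extra] using hX')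
      have a3 := h3 j false ρ x D X (X ∩ Ev fun c => Fam c j false x (2 ^ (i + 1)) D) i hj
        hρ hx (by omega) (by simpa using hok) (by simpa [Extra] using hX')
        (by simpa using hY) (by
          rintro b ⟨hb1, hb2⟩
          exact ⟨hb1, hrestr _ i (by omega) hlt hb2⟩)
      rw [hnx] at a1 a3
      have a2 := ih (i + 1) (by omega) (by omega)
      rw [Nat.add_sub_cancel] at a2
      obtain ⟨B, hB⟩ : ∃ B, B = A / 2 ^ k := ⟨_, rfl⟩
      have hB0 : 0 ≤ B := by rw [hB]; positivity
      have e3 : A / 2 ^ (k + 1) = B / 2 := by rw [hB, pow_succ, div_div]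
      rw [e3]
      rw [← hB] at a2
      have k3 : 0 ≤ Q ρ (X ∩ Ev fun c => Std c j false x (2 ^ (i - 1)) D)
          (X ∩ Ev fun c => Std c j false x (2 ^ (i - 1)) D) := measureReal_nonneg
      generalize Q ρ (X ∩ Ev fun c => Std c j false x (2 ^ (i - 1)) D)
          (X ∩ Ev fun c => Std c j false x (2 ^ (i - 1)) D) = g' at *
      generalize Q ρ (X ∩ Ev fun c => Std c j false x (2 ^ i) D)
          (X ∩ Ev fun c => Std c j false x (2 ^ i) D) = g at *
      generalize Q ρ (X ∩ Ev fun c => Fam c j false x (2 ^ (i + 1)) D)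
          (X ∩ Ev fun c => Fam c j false x (2 ^ (i + 1)) D) = f at *
      refine a3.trans ?_
      have hCB : 0 ≤ C * (1 + B) / 2 := by positivity
      calc C₃ * g' + c₁ / 2 * f ≤ C₃ * g' + c₁ / 2 * (C * (1 + B) * g) := by
            have := mul_le_mul_of_nonneg_left a2 (show 0 ≤ c₁ / 2 by positivity)
            linarith
        _ = C₃ * g' + C * (1 + B) / 2 * (c₁ * g) := by ring
        _ ≤ C / 2 * g' + C * (1 + B) / 2 * g' := by
            have h5 := mul_le_mul_of_nonneg_left a1 hCB
            have h6 : C₃ * g' ≤ C / 2 * g' := mul_le_mul_of_nonneg_right (by linarith) k3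
            linarith
        _ = C * (1 + B / 2) * g' := by ring
  intro i hi hi'
  exact key (i₀ - i) i hi (by omega)

end TP
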