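import Pool.Agent.helper78.DP.SEPO
import Pool.Agent.helper64.TP.SpecE
import Pool.Agent.helper64.TP.Basic

/-!
# Project sp (TP part): module SEXO, separation of arms with an inner event, outer side
-/

namespace TP

open DP

open MeasureTheory

theorem SEXO (hSE1 : SE1_stmt) (hSE3 : SE3_stmt) (hGXF : GXF_stmt) : SEXO_stmt := by
  obtain ⟨c₁, hc₁, i₁, h1⟩ := hSE1
  obtain ⟨C₃, hC₃, i₂, h3⟩ := hSE3 (c₁ / 2) (by positivity)
  refine ⟨max 1 (2 * C₃), le_max_left _ _, max i₁ i₂, ?_⟩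
  intro j ρ x D X i₀ A hj hρ hx hi₀ hD hX hA hrestr hbase i hi
  have hi₁ : i₁ ≤ i₀ := (le_max_left _ _).trans hi₀
  have hi₂ : i₂ ≤ i₀ := (le_max_right _ _).trans hi₀
  obtain ⟨C, hC⟩ : ∃ C, C = max 1 (2 * C₃) := ⟨_, rfl⟩
  have hC1 : 1 ≤ C := by rw [hC]; exact le_max_left _ _
  have hC2 : 2 * C₃ ≤ C := by rw [hC]; exact le_max_right _ _
  rw [← hC]
  induction i, hi using Nat.le_induction with
  | base =>
    refine hbase.trans ?_
    rw [Nat.sub_self, pow_zero, div_one]
    have hg : 0 ≤ Q ρ (X ∩ Ev fun c => Std c j true x (2 ^ (i₀ + 1)) D)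
        (X ∩ Ev fun c => Std c j true x (2 ^ (i₀ + 1)) D) := measureReal_nonneg
    refine mul_le_mul_of_nonneg_right ?_ hg
    nlinarith
  | succ i hi ih =>
    have hsub : (2 : ℕ) ^ (i₀ - 1) ≤ 2 ^ i := Nat.pow_le_pow_right (by norm_num) (by omega)
    have hok : D.ok true x (2 ^ i) := SEPO_ok x _ _ hsub D hD
    have hX' : Loc X (box x (2 ^ i)) :=
      hX.mono fun v hv => le_trans (show sd x v ≤ 2 ^ (i₀ - 1) from hv) hsub
    have hF : Loc (Ev fun c => Fam c j true x (2 ^ i) D) (box x (2 ^ i)) := by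
      have := hGXF j true x (2 ^ i) D (Or.inl rfl)
      simpa [HS] using this
    have hY : Loc (X ∩ Ev fun c => Fam c j true x (2 ^ i) D) (box x (2 ^ i)) := by
      have := hX'.inter hF
      rwa [Set.union_self] at this
    have a1 := h1 j true ρ x D X (i + 1) hj hρ hx (by omega)
      (by simpa using hok) (by simpa [Extra] using hX')
    have a3 := h3 j true ρ x D X (X ∩ Ev fun c => Fam c j true x (2 ^ i) D) (i + 1) hj
      hρ hx (by omega) (by simpa using hok) (by simpa [Extra] using hX')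
      (by simpa using hY) (by
        rintro b ⟨hb1, hb2⟩
        exact ⟨hb1, hrestr _ i hi hb2⟩)
    have e : nx true (2 ^ (i + 1)) = 2 ^ (i + 1 + 1) := by
      simp [nx, pow_succ]
      ring
    rw [e] at a1 a3
    have e2 : i + 1 - i₀ = (i - i₀) + 1 := by omega
    rw [e2]
    obtain ⟨B, hB⟩ : ∃ B, B = A / 2 ^ (i - i₀) := ⟨_, rfl⟩
    have hB0 : 0 ≤ B := by rw [hB]; positivity
    have e3 : A / 2 ^ (i - i₀ + 1) = B / 2 := by rw [hB, pow_succ, div_div]
    rw [e3]
    rw [← hB] at ih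
    have k3 : 0 ≤ Q ρ (X ∩ Ev fun c => Std c j true x (2 ^ (i + 1 + 1)) D)
        (X ∩ Ev fun c => Std c j true x (2 ^ (i + 1 + 1)) D) := measureReal_nonneg
    generalize Q ρ (X ∩ Ev fun c => Std c j true x (2 ^ (i + 1 + 1)) D)
        (X ∩ Ev fun c => Std c j true x (2 ^ (i + 1 + 1)) D) = g' at *
    generalize Q ρ (X ∩ Ev fun c => Std c j true x (2 ^ (i + 1)) D)
        (X ∩ Ev fun c => Std c j true x (2 ^ (i + 1)) D) = g at *
    generalize Q ρ (X ∩ Ev fun c => Fam c j true x (2 ^ i) D)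
        (X ∩ Ev fun c => Fam c j true x (2 ^ i) D) = f at *
    refine a3.trans ?_
    have hCB : 0 ≤ C * (1 + B) / 2 := by positivity
    calc C₃ * g' + c₁ / 2 * f ≤ C₃ * g' + c₁ / 2 * (C * (1 + B) * g) := by
          have := mul_le_mul_of_nonneg_left ih (show 0 ≤ c₁ / 2 by positivity)
          linarith
      _ = C₃ * g' + C * (1 + B) / 2 * (c₁ * g) := by ring
      _ ≤ C / 2 * g' + C * (1 + B) / 2 * g' := by
          have h5 := mul_le_mul_of_nonneg_left a1 hCB
          have h6 : C₃ * g' ≤ C / 2 * g' := mul_le_mul_of_nonneg_right (by linarith) k3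
          linarith
      _ = C * (1 + B / 2) * g' := by ring

end TP
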